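import Pool.Agent.H7.HD.Tools2

/-!
# MP_e37c09_lc, module HG: functions on an atom whose values are coded relations
-/

set_option autoImplicit false

open Ordinal Cardinal Order Set
open scoped ZFSet

universe u

namespace Pool.Agent.H89.HD.HG

open _root_.HD

/-- `b` is in the section at `a` of the relation with the least code given by `R` at `α` -/
def QQ (en : Ordinal.{u} → ZFSet.{u}) (R : Ordinal.{u} → Ordinal.{u} → Prop)
    (α a b : Ordinal.{u}) : Prop :=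
  ∃ e, R α e ∧ (∀ e1 < e, ¬ R α e1) ∧ b ∈ E2 en e a

theorem do_QQ {en : Ordinal.{u} → ZFSet.{u}}
    (hE2 : DO.{u} fun w => w 0 ∈ E2 en (w 2) (w 1)) {R : Ordinal.{u} → Ordinal.{u} → Prop}
    (hR : DR R) : DO.{u} fun w => QQ en R (w 0) (w 1) (w 2) := by
  refine DO.ex (R := fun e w => R (w 0) e ∧ (∀ e1 < e, ¬ R (w 0) e1) ∧ w 2 ∈ E2 en e (w 1)) ?_
  refine (DO.s2 (X := R) hR 1 0).and (DO.and ?_ ?_)
  · exact DO.allLt (R := fun e1 w => ¬ R (w 1) e1) 0 (DO.s2 (X := R) hR 2 0).not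
  · exact DO.s3 (X := fun b a e => b ∈ E2 en e a) hE2 3 2 0

theorem memE {en : Ordinal.{u} → ZFSet.{u}}
    (h : DO.{u} fun w => w 0 ∈ E en (w 1)) (c : Ordinal.{u}) (i : ℕ) :
    DO.{u} fun w => w i ∈ E en c :=
  DO.sub (R := fun x w => w i ∈ E en x) c
    (DO.s2 (X := fun a b => a ∈ E en b) h (i + 1) 0)

theorem X (hEA : T_EA.{u}) (hDA : T_DA.{u}) (hVD : T_VD.{u}) (_hVA : T_VA.{u}) :
    T_HG.{u} := by
  intro en ν K d hen hK hK0 hat R hR
  obtain ⟨hE1, hE2, hE3, hE4⟩ := hEA en hen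
  have hQ := do_QQ hE2 hR
  set F : Ordinal.{u} → Ordinal.{u} → Prop := fun a b =>
    Pos ν K.ord {α | α ∈ E en d ∧ QQ en R α a b} with hF
  have hFdr : DR F := by
    have h1 : DO.{u} fun w => Pos (w 0) (w 1) {α | α ∈ E en d ∧ QQ en R α (w 2) (w 3)} :=
      hDA 0 1 (fun α w => α ∈ E en d ∧ QQ en R α (w 2) (w 3))
        ((memE hE1 d 0).and (DO.s3 (X := QQ en R) hQ 0 3 4))
    have h2 : DO.{u} fun w => Pos ν (w 0) {α | α ∈ E en d ∧ QQ en R α (w 1) (w 2)} :=
      DO.sub (R := fun x w => Pos x (w 0) {α | α ∈ E en d ∧ QQ en R α (w 1) (w 2)}) ν h1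
    exact DO.sub (R := fun x w => Pos ν x {α | α ∈ E en d ∧ QQ en R α (w 0) (w 1)}) K.ord h2
  obtain ⟨e', he'⟩ := hE4 F hFdr K.ord
  refine ⟨e', fun hpos => ?_⟩
  set T : Set Ordinal.{u} := {α | α ∈ E en d ∧ (∃ e, R α e) ∧
    ¬ ∃ e, R α e ∧ ∀ a < α, ∀ b < α, (b ∈ E2 en e a ↔ b ∈ E2 en e' a)} with hT
  have hbad : ∀ α ∈ T, ∃ a < α, ∃ b < α, ¬ (QQ en R α a b ↔ b ∈ E2 en e' a) := by
    rintro α ⟨-, ⟨e0, he0⟩, h3⟩
    by_contra hcon
    push Not at hcon
    have hne : {e | R α e}.Nonempty := ⟨e0, he0⟩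
    have hmem : R α (sInf {e | R α e}) := csInf_mem hne
    have hleast : ∀ e1 < sInf {e | R α e}, ¬ R α e1 := fun e1 h1 h2 =>
      absurd (csInf_le' (show e1 ∈ {e | R α e} from h2)) (not_le.2 h1)
    apply h3
    refine ⟨sInf {e | R α e}, hmem, fun a ha b hb => ?_⟩
    rw [← hcon a ha b hb]
    constructor
    · intro h
      exact ⟨_, hmem, hleast, h⟩
    · rintro ⟨e, g1, g2, g3⟩
      have : e = sInf {e | R α e} := by
        refine le_antisymm ?_ (csInf_le' (show e ∈ {e | R α e} from g1))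
        by_contra hlt
        push Not at hlt
        exact g2 _ hlt hmem
      rwa [← this]
  classical
  obtain ⟨a, ha, hposa⟩ := hVD ν K hK hK0 T
    (fun α => if h : ∃ a < α, ∃ b < α, ¬ (QQ en R α a b ↔ b ∈ E2 en e' a) then
      Classical.choose h else 0) hpos (by
      intro α hα _ _
      have h := hbad α hα
      simp only [dif_pos h]
      exact (Classical.choose_spec h).1)
  have h1 : Pos ν K.ord {α | α ∈ E en d ∧ ∃ b < α, ¬ (QQ en R α a b ↔ b ∈ E2 en e' a)} := by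
    refine hposa.mono ?_
    rintro α _ ⟨hα, hαa⟩ _
    have h := hbad α hα
    simp only [dif_pos h] at hαa
    have h2 := (Classical.choose_spec h).2
    rw [hαa] at h2
    exact ⟨hα.1, h2⟩
  obtain ⟨b, hb, hposb⟩ := hVD ν K hK hK0 _
    (fun α => if h : ∃ b < α, ¬ (QQ en R α a b ↔ b ∈ E2 en e' a) then
      Classical.choose h else 0) h1 (by
      intro α hα _ _
      have h := hα.2
      simp only [dif_pos h]
      exact (Classical.choose_spec h).1)
  have h2 : Pos ν K.ord {α | α ∈ E en d ∧ ¬ (QQ en R α a b ↔ b ∈ E2 en e' a)} := by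
    refine hposb.mono ?_
    rintro α _ ⟨hα, hαb⟩ _
    have h := hα.2
    simp only [dif_pos h] at hαb
    have h3 := (Classical.choose_spec h).2
    rw [hαb] at h3
    exact ⟨hα.1, h3⟩
  have hiff : b ∈ E2 en e' a ↔ F a b := by
    rw [he' a b]
    exact ⟨fun h => h.2.2, fun h => ⟨ha, hb, h⟩⟩
  by_cases hFab : F a b
  · -- the section is definable
    have hDS : DS {α | QQ en R α a b} := by
      refine DO.sub (R := fun x w => QQ en R (w 0) x b) a ?_
      refine DO.sub (R := fun y w => QQ en R (w 1) (w 0) y) b ?_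
      exact DO.s3 (X := QQ en R) hQ 2 1 0
    obtain ⟨x, hx⟩ := hE3 _ hDS K.ord
    refine hat.ult x ⟨?_, ?_⟩
    · refine Pos.mono hFab ?_
      rintro α hα ⟨g1, g2⟩ _
      exact ⟨g1, by rw [hx]; exact ⟨g2, hα⟩⟩
    · refine h2.mono ?_
      rintro α hα ⟨g1, g2⟩ _
      refine ⟨g1, fun g3 => ?_⟩
      rw [hx] at g3
      apply g2
      rw [hiff]
      exact ⟨fun _ => hFab, fun _ => g3.1⟩
  · apply hFab
    refine h2.mono ?_
    rintro α _ ⟨g1, g2⟩ _
    refine ⟨g1, ?_⟩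
    by_contra hcon
    apply g2
    rw [hiff]
    exact ⟨fun h => absurd h hcon, fun h => absurd h hFab⟩

end Pool.Agent.H89.HD.HG
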