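import Pool.Agent.H7.HD.Tools2

/-!
# MP_e37c09_lc, module XE: continuity at points of small cofinality
-/

set_option autoImplicit false

open Ordinal Cardinal Order Set
open scoped ZFSet

universe u

namespace Pool.Agent.H89.HD.XE

open _root_.HD

/-- a cofinal function -/
theorem cofinal_fun {α : Ordinal.{u}} (hα : 0 < α) : ∃ G : Ordinal.{u} → Ordinal.{u},
    (∀ a < α.cof.ord, G a < α) ∧ ∀ b < α, ∃ a < α.cof.ord, b ≤ G a := by
  obtain ⟨ι, f, hf, hι⟩ := exists_lsub_cof α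
  have h1 : #(range f) ≤ Cardinal.lift.{u + 1} α.cof.ord.card := by
    rw [Cardinal.card_ord, ← hι]
    have := Cardinal.mk_range_le_lift (f := f)
    rwa [Cardinal.lift_id'.{u, u + 1}] at this
  obtain ⟨e, he⟩ := cov_iff.2 h1
  classical
  refine ⟨fun a => if e a < α then e a else 0, fun a _ => ?_, fun b hb => ?_⟩
  · dsimp only
    split_ifs with h
    · exact h
    · exact hα
  · obtain ⟨i, hi⟩ : ∃ i, b ≤ f i := by
      by_contra hcon
      push Not at hcon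
      have : lsub.{u, u} f ≤ b := lsub_le fun i => hcon i
      rw [hf] at this
      exact absurd hb (not_lt.2 this)
    obtain ⟨a, ha, hae⟩ := he (f i) ⟨i, rfl⟩
    refine ⟨a, ha, ?_⟩
    have hlt : e a < α := by
      rw [hae, ← hf]
      exact lt_lsub f i
    dsimp only
    rw [if_pos hlt, hae]
    exact hi

theorem X (hLA : T_LA.{u}) : T_XE.{u} := by
  intro δ η θ j he x hx M hM hMδ hcf
  have hcf' : x.cof.ord = M.ord := hcf
  have hcof : x.cof = M := Cardinal.ord_injective hcf'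
  have hlim : IsSuccLimit x := by
    rw [← Ordinal.aleph0_le_cof, hcof]
    exact hM.aleph0_le
  have hx0 : 0 < x := hlim.bot_lt
  have hMη : M.ord < η := hMδ.trans he.dlt
  constructor
  · obtain ⟨G, hG1, hG2⟩ := cofinal_fun hx0
    rw [hcf'] at hG1 hG2
    set ν := M.ord with hν
    set g : ZFSet.{u} := rs ν x fun a b => b = G a with hg
    have hgsub : g ⊆ ZFSet.prod ν.toZFSet x.toZFSet := by
      intro p hp
      obtain ⟨a, ha, b, hb, -, rfl⟩ := mem_rs.1 hp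
      rw [ZFSet.pair_mem_prod, toZFSet_mem_toZFSet_iff, toZFSet_mem_toZFSet_iff]
      exact ⟨ha, hb⟩
    have hgη : g ∈ V_ η := mem_V_of_sub hgsub (he.gd.prod (Gd.ord.2 hMη) (Gd.ord.2 hx))
    have hgfun : ZFSet.IsFunc ν.toZFSet x.toZFSet g := by
      refine ⟨hgsub, fun z hz => ?_⟩
      obtain ⟨a, ha, rfl⟩ := mem_toZFSet_iff.1 hz
      refine ⟨(G a).toZFSet, pair_mem_rs.2 ⟨ha, hG1 a ha, rfl⟩, fun y hy => ?_⟩
      obtain ⟨a', -, b, -, hb, h⟩ := mem_rs.1 hy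
      obtain ⟨h1, h2⟩ := ZFSet.pair_injective h
      rw [h2, hb, toZFSet_injective h1]
    have hmem : ∀ z ∈ [ν.toZFSet, x.toZFSet, g], z ∈ V_ η := by
      simp only [List.mem_cons, List.not_mem_nil, or_false, forall_eq_or_imp, forall_eq]
      exact ⟨Gd.ord.2 hMη, Gd.ord.2 hx, hgη⟩
    have hjν : j ν.toZFSet = ν.toZFSet := he.fix ν hMδ
    have hjg : ∀ (a : Ordinal.{u}) (w : ZFSet.{u}), ZFSet.pair a.toZFSet w ∈ j g →
        w = (Jo j (G a)).toZFSet ∧ a < ν := by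
      intro a w hw
      have h1 := (he.trl (loc_func 0 1 2) [ν.toZFSet, x.toZFSet, g] hmem).1 (by simpa using hgfun)
      have h2 : ZFSet.IsFunc (j ν.toZFSet) (j x.toZFSet) (j g) := by simpa using h1
      rw [hjν] at h2
      have h4 := (ZFSet.pair_mem_prod.1 (h2.1 hw)).1
      rw [toZFSet_mem_toZFSet_iff] at h4
      refine ⟨?_, h4⟩
      obtain ⟨w', hw', hu⟩ := h2.2 a.toZFSet (toZFSet_mem_toZFSet_iff.2 h4)
      have h5 : ZFSet.pair a.toZFSet (Jo j (G a)).toZFSet ∈ j g := by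
        have h6 := (he.opair (h4.trans hMη) ((hG1 a h4).trans hx) hgη).1
          (pair_mem_rs.2 ⟨h4, hG1 a h4, rfl⟩)
        rwa [he.Jo_fix (h4.trans hMδ)] at h6
      rw [hu w hw, hu _ h5]
    have hloc : Loc.{u} fun v => ∀ y ∈ v 1, ∃ a ∈ v 0, ∃ c ∈ v 1, ZFSet.pair a c ∈ v 2 ∧ y ∈ c :=
      Loc.allMem 1 (Loc.exMem 1 (Loc.exMem 3 ((loc_pmem 1 0 5).and (Loc.mem 2 0))))
    have htr := (he.trl hloc [ν.toZFSet, x.toZFSet, g] hmem).1 (by
      intro y hy
      simp only [sv_cons_zero, sv_cons_succ] at hy ⊢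
      obtain ⟨b, hb, rfl⟩ := mem_toZFSet_iff.1 hy
      obtain ⟨a, ha, hba⟩ := hG2 (succ b) (hlim.succ_lt hb)
      exact ⟨a.toZFSet, toZFSet_mem_toZFSet_iff.2 ha, (G a).toZFSet,
        toZFSet_mem_toZFSet_iff.2 (hG1 a ha), pair_mem_rs.2 ⟨ha, hG1 a ha, rfl⟩,
        toZFSet_mem_toZFSet_iff.2 (lt_of_lt_of_le (lt_succ b) hba)⟩)
    intro y hy
    have h1 : y.toZFSet ∈ j x.toZFSet := by
      rw [he.ord hx]
      exact toZFSet_mem_toZFSet_iff.2 hy
    obtain ⟨z, hz, c, hc, hac, hyc⟩ := htr y.toZFSet (by simpa using h1)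
    simp only [List.map_cons, sv_cons_zero, sv_cons_succ] at hz hc hac
    rw [hjν] at hz
    obtain ⟨a, ha', rfl⟩ := mem_toZFSet_iff.1 hz
    obtain ⟨h2, -⟩ := hjg a c hac
    rw [h2] at hyc
    exact ⟨G a, hG1 a ha', toZFSet_mem_toZFSet_iff.1 hyc⟩
  · have htr := (he.trl hLA [M.ord.toZFSet, x.toZFSet] (by
      simp only [List.mem_cons, List.not_mem_nil, or_false, forall_eq_or_imp, forall_eq]
      exact ⟨Gd.ord.2 hMη, Gd.ord.2 hx⟩)).1 (by
        simp only [sv_cons_zero, sv_cons_succ, rank_toZFSet]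
        exact ⟨ZFSet.isOrdinal_toZFSet _, ZFSet.isOrdinal_toZFSet _, hcf⟩)
    simp only [List.map_cons, sv_cons_zero, sv_cons_succ] at htr
    rw [he.fix _ hMδ, he.ord hx, rank_toZFSet, rank_toZFSet] at htr
    exact htr.2.2

end Pool.Agent.H89.HD.XE
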