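import Pool.Agent.H7.HD.Targets7
import Pool.Agent.H7.HD.NU

/-!
# MP_e37c09_lc: module SP, supercompactness in HOD (assembly)
-/

open Ordinal Cardinal Order Set
open scoped ZFSet

universe u

namespace Pool.Agent.H89.HD.SP

open _root_.HD

/-- SP. -/
theorem sp (hTW : T_TW.{u}) (hZX : T_ZX.{u}) (hFC : T_FC.{u}) : T_SP.{u} := by
  intro D N K lam hD hN hND hK hDK hreg hKl hDl hno
  obtain ⟨en, M, c, d, x, hT⟩ := hTW D N K lam hD hN hND hK hDK hreg hKl hDl hno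
  have hlam : ℵ₀ < lam.cof := hD.2.2.1.trans hDl
  obtain ⟨Z, hZ⟩ := hZX en N M K lam c d x hT
  obtain ⟨h1, h2⟩ := hFC en M K lam c Z hT.hen hlam hreg hT.ac hZ
  have hcf : lam.cof = K := hT.rc lam hKl.le le_rfl hreg
  exact Pool.Agent.H7.HD.NU.nu en hT.hen M K.ord lam c (Xz (Yz en M lam c Z) Z) hlam
    (by rw [hcf]) hT.ac h1 h2

end Pool.Agent.H89.HD.SP
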