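import Pool.Agent.H7.HD.Targets6

/-!
# MP_e37c09_lc: module SU, supercompactness in HOD
-/

open Ordinal Cardinal Order Set
open scoped ZFSet

universe u

namespace Pool.Agent.H89.HD.SU

open _root_.HD

/-- SU. -/
theorem su (hGZ : T_GZ.{u}) (hFA : T_FA.{u}) (hNO : T_NO.{u}) (hNU : T_NU.{u})
    (hLK : T_LK.{u}) : T_SU.{u} := by
  intro D K lam hD hK hDK hreg hKl hfew hcf
  have hls : lam < (succ K).ord := hLK D K lam hD hK hDK hfew
  obtain ⟨τ, hτ, g, hg⟩ := hfew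
  have hτc : τ.card < D := Cardinal.lt_ord.1 hτ
  obtain ⟨M, hM, hM0, hτM, hMD⟩ : ∃ M : Cardinal.{u}, M.IsRegular ∧ ℵ₀ < M ∧ τ.card < M ∧
      M < D := by
    refine ⟨succ (max ℵ₀ τ.card), Cardinal.isRegular_succ (le_max_left _ _),
      (le_max_left _ _).trans_lt (lt_succ _), (le_max_right _ _).trans_lt (lt_succ _), ?_⟩
    exact hD.2.1.isSuccLimit.succ_lt (max_lt hD.2.2.1 hτc)
  obtain ⟨en, hen⟩ := All.en.{u}
  have hDl : D < lam.cof := by rw [hcf]; exact hDK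
  have hlam : ℵ₀ < lam.cof := hD.2.2.1.trans hDl
  have hns : NSX D.ord M.ord lam := All.ha D.ord M.ord lam (hD.2.2.2 M hM hMD lam hDl.le)
  obtain ⟨c, -, hat⟩ := All.hb2 en hen D M lam hD.1 hD.2.1 hD.2.2.1 hM hMD hDl hns univ
    ((DO.cst True).congr fun _ => by simp) (All.vc M lam hM (hMD.trans hDl))
  obtain ⟨Z, hZ⟩ := hGZ M K lam τ g hM hM0 (hMD.trans hDK) hK hcf hKl hls hτM hg
  exact hNU en hen M K.ord lam c (Xz (Yz en M lam c Z) Z) hlam (by rw [hcf]) hat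
    (hFA en M K lam c Z hen hlam hreg hat hZ) (hNO en M K lam c Z hen hlam hreg hat hZ)

end Pool.Agent.H89.HD.SU
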